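import Mathlib
import Pool.Agent.R608.MunnTree
import Pool.Agent.R608.TreeLattice3
import Pool.Agent.R608.TreeReduction

/-!
# The set of strictly monotone closed sublattices of `C(Δ; L₁)` is `Π¹₁`-hard
-/

set_option autoImplicit false

open Set Filter Topology MeasureTheory TopologicalSpace
open Pool.Agent.R608.TreeLattice2 Pool.Agent.R608.TreeLattice3 Pool.Agent.R608.TreeReduction
open Pool.Agent.R608.MunnTree (Tree HasBranch)

namespace Pool.Agent.Results.MP_4a2ece_lc.StrictlyMonotoneHard

noncomputable section

/-- The Banach lattice `C(Δ; L₁)`, where `Δ = {0,1}^ℕ` and `L₁ = L₁[0,1]`. -/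
def BL : Type := C(ℕ → Bool, Lp ℝ 1 (volume.restrict (Icc (0 : ℝ) 1)))

/-- The supremum norm. -/
instance instNorm : NormedAddCommGroup BL :=
  inferInstanceAs (NormedAddCommGroup C(ℕ → Bool, Lp ℝ 1 (volume.restrict (Icc (0 : ℝ) 1))))

instance instSpace : NormedSpace ℝ BL :=
  inferInstanceAs (NormedSpace ℝ C(ℕ → Bool, Lp ℝ 1 (volume.restrict (Icc (0 : ℝ) 1))))

/-- The pointwise order. -/
instance instLattice : Lattice BL :=
  inferInstanceAs (Lattice C(ℕ → Bool, Lp ℝ 1 (volume.restrict (Icc (0 : ℝ) 1))))

/-- `Subl(C)`: the closed sublattices of `C(Δ; L₁)` (closed linear subspaces closed under the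
absolute value). -/
structure SublC where
  /-- the underlying subspace -/
  space : Submodule ℝ BL
  closed : IsClosed (space : Set BL)
  abs_mem : ∀ y ∈ space, |y| ∈ space

/-- The distance of `α` to the sublattice `F`. -/
def distTo (F : SublC) (α : BL) : ℝ := Metric.infDist α (F.space : Set BL)

/-- The Wijsman topology: the coarsest topology making `F ↦ dist(α, F)` continuous for all `α`. -/
instance instTop : TopologicalSpace SublC := TopologicalSpace.induced distTo inferInstance

/-- `STM(C)`: the strictly monotone closed sublattices. -/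
def STM : Set SublC :=
  {F | ∀ x ∈ F.space, ∀ y ∈ F.space, 0 < y → y ≤ x → ‖x - y‖ < ‖x‖}

/-- The sublattice attached to a tree. -/
def treeLattice (T : Tree) : SublC where
  space := ET T
  closed := isClosed_ET T
  abs_mem := fun _ h => abs_mem_ET h

lemma continuous_treeLattice : Continuous treeLattice :=
  continuous_induced_rng.2 (continuous_pi fun α => continuous_infDist α)

lemma treeLattice_mem_iff (T : Tree) : treeLattice T ∈ STM ↔ ¬ HasBranch T :=
  strictlyMonotone_iff T

/-- **Theorem.** The set `STM(C)` is `Π¹₁`-hard: for every zero-dimensional Polish space `Y` and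
every coanalytic `B ⊆ Y` there is a continuous `f : Y → Subl(C)` with `f⁻¹(STM(C)) = B`. More
precisely, there is a continuous map from the space of trees to `Subl(C)` such that the lattice
attached to `T` is strictly monotone if and only if `T` has no infinite branch. -/
theorem result :
    (∀ (Y : Type) [TopologicalSpace Y] [PolishSpace Y],
      IsTopologicalBasis {s : Set Y | IsClopen s} → ∀ B : Set Y, AnalyticSet Bᶜ →
        ∃ f : Y → SublC, Continuous f ∧ f ⁻¹' STM = B) ∧
    ∃ E : Tree → SublC, Continuous E ∧ ∀ T, E T ∈ STM ↔ ¬ HasBranch T := by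
  refine ⟨fun Y _ _ hY B hB => ?_, treeLattice, continuous_treeLattice, treeLattice_mem_iff⟩
  obtain ⟨f, hf, hfB⟩ := exists_reduction hY hB
  refine ⟨fun y => treeLattice (f y), continuous_treeLattice.comp hf, ?_⟩
  ext y
  rw [mem_preimage, treeLattice_mem_iff, hfB]

end

end Pool.Agent.Results.MP_4a2ece_lc.StrictlyMonotoneHard
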